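import Pool.Agent.L0h52.BT.Gal

/-!
# The families `(E × Y) / μ₃`, `Y : w³ = f(t)`, `E : y² = x³ - 432 D²`

These are the surfaces (threefolds, …) `X³ + f(t) Y³ = D f(t)² Z³`.
-/

set_option autoImplicit false
set_option linter.unusedSectionVars false

namespace Pool.Agent.L0h52.BT

open Finsupp
open scoped Classical
open Pool.Agent.TH841.SH.D (Pt act Gal)

variable {k : Type} [Field k] [CharZero k]


/-- `x³ + y³ = D` as `y² = x³ - 432 D²` -/
def cubic (D : k) : WeierstrassCurve k := ⟨0, 0, 0, 0, -432 * D ^ 2⟩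

lemma nonsing {D : k} (hD : D ≠ 0) {ζ : (AlgebraicClosure k)} (h : ζ ^ 2 + ζ + 1 = 0) :
    ((cubic D).baseChange (AlgebraicClosure k)).toAffine.Nonsingular 0 (12 * (2 * ζ + 1) * algebraMap k (AlgebraicClosure k) D) := by
  have hD' : algebraMap k (AlgebraicClosure k) D ≠ 0 := (map_ne_zero_iff _ (algebraMap k (AlgebraicClosure k)).injective).2 hD
  rw [WeierstrassCurve.Affine.nonsingular_iff, WeierstrassCurve.Affine.equation_iff]
  have ha1 : ((cubic D).baseChange (AlgebraicClosure k)).toAffine.a₁ = 0 := map_zero _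
  have ha2 : ((cubic D).baseChange (AlgebraicClosure k)).toAffine.a₂ = 0 := map_zero _
  have ha3 : ((cubic D).baseChange (AlgebraicClosure k)).toAffine.a₃ = 0 := map_zero _
  have ha4 : ((cubic D).baseChange (AlgebraicClosure k)).toAffine.a₄ = 0 := map_zero _
  have ha6 : ((cubic D).baseChange (AlgebraicClosure k)).toAffine.a₆ = -432 * (algebraMap k (AlgebraicClosure k) D) ^ 2 := by
    show algebraMap k (AlgebraicClosure k) (-432 * D ^ 2) = _
    rw [map_mul, map_pow, map_neg, map_ofNat]
  rw [ha1, ha2, ha3, ha4, ha6]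
  constructor
  · linear_combination (144 * 4 * algebraMap k (AlgebraicClosure k) D ^ 2) * h
  · right
    have h3 : (2 * ζ + 1) ≠ 0 := by
      intro h0
      have h1 : (3 : (AlgebraicClosure k)) = 0 := by linear_combination (-(2 * ζ + 1)) * h0 + 4 * h
      norm_num at h1
    intro h0
    have h1 : (24 : (AlgebraicClosure k)) * (2 * ζ + 1) * algebraMap k (AlgebraicClosure k) D = 0 := by linear_combination h0
    rcases mul_eq_zero.1 h1 with h2 | h2
    · rcases mul_eq_zero.1 h2 with h4 | h4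
      · norm_num at h4
      · exact h3 h4
    · exact hD' h2

/-- the point `(x, y)` -/
noncomputable def sm {E : WeierstrassCurve k} (x y : (AlgebraicClosure k))
    (h : (E.baseChange (AlgebraicClosure k)).toAffine.Nonsingular x y) : Pt E (AlgebraicClosure k) :=
  WeierstrassCurve.Affine.Point.some x y h

lemma sm_congr {E : WeierstrassCurve k} {x y x' y' : (AlgebraicClosure k)}
    (h : (E.baseChange (AlgebraicClosure k)).toAffine.Nonsingular x y)
    (h' : (E.baseChange (AlgebraicClosure k)).toAffine.Nonsingular x' y') (hx : x = x') (hy : y = y') :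
    sm x y h = sm x' y' h' := by
  subst hx hy
  rfl

lemma sm_neg {E : WeierstrassCurve k} {x y : (AlgebraicClosure k)}
    (h : (E.baseChange (AlgebraicClosure k)).toAffine.Nonsingular x y) :
    -sm x y h = sm x ((E.baseChange (AlgebraicClosure k)).toAffine.negY x y)
      ((WeierstrassCurve.Affine.nonsingular_neg ..).mpr h) := rfl

lemma sm_ne {E : WeierstrassCurve k} {x y : (AlgebraicClosure k)}
    (h : (E.baseChange (AlgebraicClosure k)).toAffine.Nonsingular x y) : sm x y h ≠ 0 :=
  WeierstrassCurve.Affine.Point.some_ne_zero h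

lemma sm_inj {E : WeierstrassCurve k} {x y x' y' : (AlgebraicClosure k)}
    {h : (E.baseChange (AlgebraicClosure k)).toAffine.Nonsingular x y}
    {h' : (E.baseChange (AlgebraicClosure k)).toAffine.Nonsingular x' y'} (he : sm x y h = sm x' y' h') :
    x = x' ∧ y = y' :=
  WeierstrassCurve.Affine.Point.some.inj he

lemma sm_act {E : WeierstrassCurve k} {x y : (AlgebraicClosure k)} (σ : Gal k)
    (h : (E.baseChange (AlgebraicClosure k)).toAffine.Nonsingular x y) :
    act E σ.toAlgHom (sm x y h) = sm (σ x) (σ y)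
      ((WeierstrassCurve.Affine.baseChange_nonsingular (W := E) (f := σ.toAlgHom)
          σ.toAlgHom.injective _ _).mpr h) := rfl

/-- the embedding of the group of the third roots of unity: `T ζ = (0, 12 (2 ζ + 1) D)` -/
noncomputable def T (D : k) (hD : D ≠ 0) (ζ : (AlgebraicClosure k)) : Pt (cubic D) (AlgebraicClosure k) :=
  if h : ζ ^ 2 + ζ + 1 = 0 then sm 0 _ (nonsing hD h) else 0

variable {D : k} {hD : D ≠ 0}

lemma T_one : T D hD 1 = 0 := by
  unfold T
  rw [dif_neg]
  norm_num

lemma prim {ζ : (AlgebraicClosure k)} (h : ζ ^ 3 = 1) (h1 : ζ ≠ 1) : ζ ^ 2 + ζ + 1 = 0 := by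
  have h2 : (ζ - 1) * (ζ ^ 2 + ζ + 1) = 0 := by linear_combination h
  rcases mul_eq_zero.1 h2 with h3 | h3
  · exact absurd (sub_eq_zero.1 h3) h1
  · exact h3

lemma T_some {ζ : (AlgebraicClosure k)} (h : ζ ^ 2 + ζ + 1 = 0) :
    T D hD ζ = sm 0 _ (nonsing hD h) := by
  unfold T
  rw [dif_pos h]

lemma negY_eq (y : (AlgebraicClosure k)) : ((cubic D).baseChange (AlgebraicClosure k)).toAffine.negY 0 y = -y := by
  have ha1 : ((cubic D).baseChange (AlgebraicClosure k)).toAffine.a₁ = 0 := map_zero _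
  have ha3 : ((cubic D).baseChange (AlgebraicClosure k)).toAffine.a₃ = 0 := map_zero _
  rw [WeierstrassCurve.Affine.negY, ha1, ha3]
  ring

lemma T_neg {ζ : (AlgebraicClosure k)} (h : ζ ^ 2 + ζ + 1 = 0) : T D hD (ζ ^ 2) = -T D hD ζ := by
  have h2 : (ζ ^ 2) ^ 2 + ζ ^ 2 + 1 = 0 := by linear_combination (ζ ^ 2 - ζ + 1) * h
  rw [T_some h, T_some h2, sm_neg]
  apply sm_congr
  · rfl
  · rw [negY_eq]
    linear_combination (24 * algebraMap k (AlgebraicClosure k) D) * h

lemma T_dbl {ζ : (AlgebraicClosure k)} (h : ζ ^ 2 + ζ + 1 = 0) : T D hD ζ + T D hD ζ = -T D hD ζ := by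
  have hD' : algebraMap k (AlgebraicClosure k) D ≠ 0 := (map_ne_zero_iff _ (algebraMap k (AlgebraicClosure k)).injective).2 hD
  have h3 : (2 * ζ + 1) ≠ 0 := by
    intro h0
    have h1 : (3 : (AlgebraicClosure k)) = 0 := by linear_combination (-(2 * ζ + 1)) * h0 + 4 * h
    norm_num at h1
  set y : (AlgebraicClosure k) := 12 * (2 * ζ + 1) * algebraMap k (AlgebraicClosure k) D with hy
  have hy0 : y ≠ 0 := mul_ne_zero (mul_ne_zero (by norm_num) h3) hD'
  rw [T_some h]
  have hne : y ≠ ((cubic D).baseChange (AlgebraicClosure k)).toAffine.negY 0 y := by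
    rw [negY_eq]
    intro h1
    apply hy0
    have h2 : (2 : (AlgebraicClosure k)) * y = 0 := by linear_combination h1
    rcases mul_eq_zero.1 h2 with h4 | h4
    · norm_num at h4
    · exact h4
  have ha1 : ((cubic D).baseChange (AlgebraicClosure k)).toAffine.a₁ = 0 := map_zero _
  have ha2 : ((cubic D).baseChange (AlgebraicClosure k)).toAffine.a₂ = 0 := map_zero _
  have ha3 : ((cubic D).baseChange (AlgebraicClosure k)).toAffine.a₃ = 0 := map_zero _
  have ha4 : ((cubic D).baseChange (AlgebraicClosure k)).toAffine.a₄ = 0 := map_zero _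
  have hsl : ((cubic D).baseChange (AlgebraicClosure k)).toAffine.slope 0 0 y y = 0 := by
    rw [WeierstrassCurve.Affine.slope_of_Y_ne rfl hne, ha1, ha2, ha4]
    simp
  have e1 := WeierstrassCurve.Affine.Point.add_some (W := (cubic D).baseChange (AlgebraicClosure k))
    (h₁ := nonsing hD h) (h₂ := nonsing hD h) (fun hc => hne hc.2)
  refine e1.trans ?_
  rw [sm_neg]
  apply sm_congr
  · rw [WeierstrassCurve.Affine.addX, hsl, ha1, ha2]
    ring
  · rw [WeierstrassCurve.Affine.addY, WeierstrassCurve.Affine.addX,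
      WeierstrassCurve.Affine.negAddY, WeierstrassCurve.Affine.addX, hsl, ha1, ha2]
    simp only [mul_zero, sub_zero, zero_add, add_zero, ne_eq, OfNat.ofNat_ne_zero,
      not_false_eq_true, zero_pow]
    rfl

lemma T_mul {ζ η : (AlgebraicClosure k)} (hζ : ζ ^ 3 = 1) (hη : η ^ 3 = 1) :
    T D hD (ζ * η) = T D hD ζ + T D hD η := by
  by_cases h1 : ζ = 1
  · rw [h1, one_mul, T_one, zero_add]
  by_cases h2 : η = 1
  · rw [h2, mul_one, T_one, add_zero]
  have p1 := prim hζ h1
  have p2 := prim hη h2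
  have h3 : (ζ - η) * (ζ + η + 1) = 0 := by linear_combination p1 - p2
  rcases mul_eq_zero.1 h3 with h4 | h4
  · have h5 : η = ζ := (sub_eq_zero.1 h4).symm
    rw [h5, T_dbl p1, ← T_neg p1, pow_two]
  · have h5 : η = ζ ^ 2 := by linear_combination h4 - p1
    have h6 : ζ * η = 1 := by rw [h5, ← hζ]; ring
    rw [h6, T_one, h5, T_neg p1, add_neg_cancel]

lemma T_inj {ζ η : (AlgebraicClosure k)} (hζ : ζ ^ 3 = 1) (hη : η ^ 3 = 1) (h : T D hD ζ = T D hD η) : ζ = η := by
  have hD' : algebraMap k (AlgebraicClosure k) D ≠ 0 := (map_ne_zero_iff _ (algebraMap k (AlgebraicClosure k)).injective).2 hD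
  by_cases h1 : ζ = 1
  · by_contra hne
    have p2 := prim hη (fun h => hne (h1.trans h.symm))
    rw [h1, T_one, T_some p2] at h
    exact absurd h.symm (sm_ne _)
  by_cases h2 : η = 1
  · have p1 := prim hζ h1
    rw [h2, T_one, T_some p1] at h
    exact absurd h (sm_ne _)
  rw [T_some (prim hζ h1), T_some (prim hη h2)] at h
  have h3 := (sm_inj h).2
  have h4 : (24 * algebraMap k (AlgebraicClosure k) D) * (ζ - η) = 0 := by linear_combination h3
  rcases mul_eq_zero.1 h4 with h5 | h5
  · exact absurd h5 (mul_ne_zero (by norm_num) hD')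
  · exact sub_eq_zero.1 h5

lemma T_gal (σ : Gal k) (ζ : (AlgebraicClosure k)) : act (cubic D) σ.toAlgHom (T D hD ζ) = T D hD (σ ζ) := by
  by_cases h : ζ ^ 2 + ζ + 1 = 0
  · have h2 : (σ ζ) ^ 2 + σ ζ + 1 = 0 := by
      rw [← map_pow, ← map_add, ← map_one σ, ← map_add, h, map_zero]
    rw [T_some h, T_some h2, sm_act]
    apply sm_congr
    · exact map_zero _
    · rw [map_mul, map_mul, map_add, map_mul, map_one, map_ofNat, map_ofNat]
      congr 1
      exact σ.commutes D
  · have h2 : ¬ ((σ ζ) ^ 2 + σ ζ + 1 = 0) := by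
      rw [← map_pow, ← map_add, ← map_one σ, ← map_add]
      exact fun hc => h ((map_eq_zero_iff σ σ.injective).1 hc)
    unfold T
    rw [dif_neg h, dif_neg h2, map_zero]

end Pool.Agent.L0h52.BT
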