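import Pool.Agent.L0h52.BT.Cubic

/-!
# The family `(E × Y) / μ₃` is a family of torsors under `E`
-/

set_option autoImplicit false
set_option linter.unusedSectionVars false

namespace Pool.Agent.L0h52.BT

open Finsupp
open scoped Classical
open Pool.Agent.TH841.SH.D (Pt act Gal)

variable {k : Type} [Field k] [CharZero k]


/-- A point of `E × Y` over the algebraic closure, `Y : w³ = f(t) ≠ 0`. -/
structure PY (D : k) {m : ℕ} (f : MvPolynomial (Fin m) k) where
  P : Pt (cubic D) (AlgebraicClosure k)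
  t : Fin m → (AlgebraicClosure k)
  w : (AlgebraicClosure k)
  hw : w ^ 3 = MvPolynomial.aeval t f
  hf : MvPolynomial.aeval t f ≠ 0

variable {D : k} {m : ℕ} {f : MvPolynomial (Fin m) k}

lemma PY.ext' {a b : PY D f} (h1 : a.P = b.P) (h2 : a.t = b.t) (h3 : a.w = b.w) : a = b := by
  cases a
  cases b
  subst h1 h2 h3
  rfl

lemma PY.w_ne (a : PY D f) : a.w ≠ 0 := by
  intro h
  apply a.hf
  rw [← a.hw, h]
  norm_num

/-- The orbits of `μ₃`: `(P, t, w) ~ (P + T ζ, t, ζ w)`. -/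
def PY.rel (hD : D ≠ 0) (a b : PY D f) : Prop :=
  a.t = b.t ∧ ∃ ζ : (AlgebraicClosure k), ζ ^ 3 = 1 ∧ b.w = ζ * a.w ∧ b.P = a.P + T D hD ζ

lemma PY.rel_eqv (hD : D ≠ 0) : Equivalence (PY.rel (D := D) (f := f) hD) where
  refl a := ⟨rfl, 1, one_pow 3, (one_mul _).symm, by rw [T_one, add_zero]⟩
  symm := by
    rintro a b ⟨h1, ζ, h2, h3, h4⟩
    have h0 : ζ ≠ 0 := by
      rintro rfl
      norm_num at h2
    refine ⟨h1.symm, ζ⁻¹, by rw [inv_pow, h2, inv_one], ?_, ?_⟩
    · rw [h3]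
      field_simp
    · have h5 : T D hD ζ + T D hD ζ⁻¹ = 0 := by
        rw [← T_mul h2 (by rw [inv_pow, h2, inv_one]), mul_inv_cancel₀ h0, T_one]
      rw [h4, add_assoc, h5, add_zero]
  trans := by
    rintro a b c ⟨h1, ζ, h2, h3, h4⟩ ⟨h1', η, h2', h3', h4'⟩
    refine ⟨h1.trans h1', ζ * η, by rw [mul_pow, h2, h2', one_mul], ?_, ?_⟩
    · rw [h3', h3]
      ring
    · rw [h4', h4, T_mul h2 h2', add_assoc]

/-- the quotient -/
def PY.setoid (D : k) (hD : D ≠ 0) (f : MvPolynomial (Fin m) k) : Setoid (PY D f) :=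
  ⟨PY.rel hD, PY.rel_eqv hD⟩

/-- the points of `X = (E × Y) / μ₃` -/
def XP (D : k) (hD : D ≠ 0) (f : MvPolynomial (Fin m) k) : Type := Quotient (PY.setoid D hD f)

variable {hD : D ≠ 0}

/-- the class of a point -/
def XP.mk (hD : D ≠ 0) (a : PY D f) : XP D hD f := Quotient.mk (PY.setoid D hD f) a

lemma XP.mk_eq_iff (a b : PY D f) : XP.mk hD a = XP.mk hD b ↔ PY.rel hD a b := by
  unfold XP.mk
  exact Quotient.eq (r := PY.setoid D hD f)

/-- the projection to the base -/
def XP.base : XP D hD f → Fin m → (AlgebraicClosure k) := Quotient.lift PY.t fun _ _ h => h.1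

lemma aeval_gal (σ : Gal k) (t : Fin m → (AlgebraicClosure k)) (f : MvPolynomial (Fin m) k) :
    σ (MvPolynomial.aeval t f) = MvPolynomial.aeval (fun i => σ (t i)) f :=
  DFunLike.congr_fun (MvPolynomial.comp_aeval (f := t) (σ : (AlgebraicClosure k) →ₐ[k] (AlgebraicClosure k))) f

/-- the action of the Galois group on the points of `E × Y` -/
noncomputable def PY.gal (σ : Gal k) (a : PY D f) : PY D f where
  P := act (cubic D) σ.toAlgHom a.P
  t := fun i => σ (a.t i)
  w := σ a.w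
  hw := by rw [← map_pow, a.hw, aeval_gal]
  hf := by
    rw [← aeval_gal]
    exact fun hc => a.hf ((map_eq_zero_iff σ σ.injective).1 hc)

/-- the action of `E` on the points of `E × Y` -/
noncomputable def PY.tr (Q : Pt (cubic D) (AlgebraicClosure k)) (a : PY D f) : PY D f :=
  ⟨Q + a.P, a.t, a.w, a.hw, a.hf⟩

/-- the action of the Galois group on the points of `X` -/
noncomputable def XP.gal (σ : Gal k) : XP D hD f → XP D hD f :=
  Quotient.map' (s₁ := PY.setoid D hD f) (s₂ := PY.setoid D hD f) (PY.gal σ) fun a b h => by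
    obtain ⟨h1, ζ, h2, h3, h4⟩ := h
    refine ⟨?_, σ ζ, by rw [← map_pow, h2, map_one], ?_, ?_⟩
    · show (fun i => σ (a.t i)) = fun i => σ (b.t i)
      rw [h1]
    · show σ b.w = σ ζ * σ a.w
      rw [h3, map_mul]
    · show act (cubic D) σ.toAlgHom b.P = act (cubic D) σ.toAlgHom a.P + T D hD (σ ζ)
      rw [h4, map_add, T_gal]

/-- the action of `E` on the points of `X` -/
noncomputable def XP.tr (Q : Pt (cubic D) (AlgebraicClosure k)) : XP D hD f → XP D hD f :=
  Quotient.map' (s₁ := PY.setoid D hD f) (s₂ := PY.setoid D hD f) (PY.tr Q) fun a b h => by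
    obtain ⟨h1, ζ, h2, h3, h4⟩ := h
    refine ⟨h1, ζ, h2, h3, ?_⟩
    show Q + b.P = Q + a.P + T D hD ζ
    rw [h4, add_assoc]

lemma XP.ind {p : XP D hD f → Prop} (h : ∀ a : PY D f, p (XP.mk hD a)) (x : XP D hD f) : p x :=
  Quotient.inductionOn x h

lemma XP.gal_mk (σ : Gal k) (a : PY D f) : XP.gal σ (XP.mk hD a) = XP.mk hD (PY.gal σ a) := rfl

lemma XP.tr_mk (Q : Pt (cubic D) (AlgebraicClosure k)) (a : PY D f) :
    XP.tr Q (XP.mk hD a) = XP.mk hD (PY.tr Q a) := rfl

lemma XP.base_mk (a : PY D f) : XP.base (XP.mk hD a) = a.t := rfl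

/-- a cube root -/
noncomputable def rt (x : (AlgebraicClosure k)) : (AlgebraicClosure k) :=
  (IsAlgClosed.exists_pow_nat_eq x (n := 3) (by norm_num)).choose

lemma rt_pow (x : (AlgebraicClosure k)) : rt x ^ 3 = x :=
  (IsAlgClosed.exists_pow_nat_eq x (n := 3) (by norm_num)).choose_spec

/-- the third roots of unity -/
noncomputable def mu3 (k : Type) [Field k] : Finset (AlgebraicClosure k) :=
  Polynomial.nthRootsFinset 3 (1 : AlgebraicClosure k)

lemma mem_mu3 {ζ : (AlgebraicClosure k)} : ζ ∈ mu3 k ↔ ζ ^ 3 = 1 := Polynomial.mem_nthRootsFinset (by norm_num) 1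

/-- the point `(T ζ, t, ∛ f(t))` -/
noncomputable def PY.pt (hD : D ≠ 0) (t : Fin m → (AlgebraicClosure k)) (ht : MvPolynomial.aeval t f ≠ 0) (ζ : (AlgebraicClosure k)) :
    PY D f :=
  ⟨T D hD ζ, t, rt (MvPolynomial.aeval t f), rt_pow _, ht⟩

/-- the multisection: the image of `{O} × Y` -/
noncomputable def XP.W (hD : D ≠ 0) (f : MvPolynomial (Fin m) k) (t : Fin m → (AlgebraicClosure k)) :
    Finset (XP D hD f) :=
  if ht : MvPolynomial.aeval t f ≠ 0 then
    (mu3 k).image fun ζ => XP.mk hD (PY.pt hD t ht ζ) else ∅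

/-- `W t` consists of the classes of the points `(O, t, w)`, `w³ = f(t)` -/
theorem XP.mem_W {t : Fin m → (AlgebraicClosure k)} {x : XP D hD f} :
    x ∈ XP.W hD f t ↔ ∃ a : PY D f, a.P = 0 ∧ a.t = t ∧ x = XP.mk hD a := by
  unfold XP.W
  constructor
  · intro hx
    split_ifs at hx with ht
    · rw [Finset.mem_image] at hx
      obtain ⟨ζ, hζ, rfl⟩ := hx
      rw [mem_mu3] at hζ
      have h0 : ζ ≠ 0 := by
        rintro rfl
        norm_num at hζ
      refine ⟨⟨0, t, ζ⁻¹ * rt (MvPolynomial.aeval t f), ?_, ht⟩, rfl, rfl, ?_⟩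
      · rw [mul_pow, inv_pow, hζ, inv_one, one_mul, rt_pow]
      · rw [XP.mk_eq_iff]
        refine ⟨rfl, ζ⁻¹, by rw [inv_pow, hζ, inv_one], rfl, ?_⟩
        show (0 : Pt (cubic D) (AlgebraicClosure k)) = T D hD ζ + T D hD ζ⁻¹
        rw [← T_mul hζ (by rw [inv_pow, hζ, inv_one]), mul_inv_cancel₀ h0, T_one]
    · exact absurd hx (Finset.notMem_empty _)
  · rintro ⟨a, h1, rfl, rfl⟩
    rw [dif_pos a.hf, Finset.mem_image]
    set r := rt (MvPolynomial.aeval a.t f) with hr
    have hr3 : r ^ 3 = a.w ^ 3 := by rw [hr, rt_pow, a.hw]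
    have hr0 : r ≠ 0 := by
      intro h
      rw [h] at hr3
      have := a.w_ne
      exact this (by
        have h5 : a.w ^ 3 = 0 := by rw [← hr3]; norm_num
        exact pow_eq_zero_iff (by norm_num) |>.1 h5)
    have hζ : (r / a.w) ^ 3 = 1 := by
      rw [div_pow, hr3, div_self (pow_ne_zero 3 a.w_ne)]
    refine ⟨r / a.w, mem_mu3.2 hζ, ?_⟩
    symm
    rw [XP.mk_eq_iff]
    refine ⟨rfl, r / a.w, hζ, ?_, ?_⟩
    · show r = r / a.w * a.w
      rw [div_mul_cancel₀ _ a.w_ne]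
    · show T D hD (r / a.w) = a.P + T D hD (r / a.w)
      rw [h1, zero_add]

/-- the family `X = (E × Y) / μ₃ → U` -/
noncomputable def cubicFamily (D : k) (hD : D ≠ 0) {m : ℕ} (f : MvPolynomial (Fin m) k)
    (hf : f ≠ 0) : TorsorFamily (cubic D) m where
  f := f
  f_ne := hf
  X := XP D hD f
  base := XP.base
  gal := XP.gal
  tr := XP.tr
  W := XP.W hD f
  n := (mu3 k).card
  n_pos := Finset.card_pos.2 ⟨1, mem_mu3.2 (one_pow 3)⟩
  base_ne := XP.ind fun a => a.hf
  gal_one := XP.ind fun a => by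
    rw [XP.gal_mk]
    congr 1
    apply PY.ext'
    · show act (cubic D) (1 : Gal k).toAlgHom a.P = a.P
      match a.P with
      | .zero => exact map_zero _
      | .some x y h => exact sm_congr _ _ rfl rfl
    · rfl
    · rfl
  gal_mul σ τ := XP.ind fun a => by
    rw [XP.gal_mk, XP.gal_mk, XP.gal_mk]
    congr 1
    apply PY.ext'
    · show act (cubic D) (σ * τ : Gal k).toAlgHom a.P =
        act (cubic D) σ.toAlgHom (act (cubic D) τ.toAlgHom a.P)
      match a.P with
      | .zero =>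
        show act (cubic D) (σ * τ : Gal k).toAlgHom 0 =
          act (cubic D) σ.toAlgHom (act (cubic D) τ.toAlgHom 0)
        rw [map_zero, map_zero, map_zero]
      | .some x y h => rfl
    · rfl
    · rfl
  base_gal σ := XP.ind fun a i => rfl
  tr_zero := XP.ind fun a => by
    rw [XP.tr_mk]
    exact congrArg _ (PY.ext' (zero_add _) rfl rfl)
  tr_add P Q := XP.ind fun a => by
    rw [XP.tr_mk, XP.tr_mk, XP.tr_mk]
    congr 1
    exact PY.ext' (add_assoc _ _ _) rfl rfl
  base_tr P := XP.ind fun a => rfl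
  trans := XP.ind fun a => XP.ind fun b hab => by
    have hab' : a.t = b.t := hab
    have hζ : (b.w / a.w) ^ 3 = 1 := by
      rw [div_pow, a.hw, b.hw, hab', div_self b.hf]
    refine ⟨b.P - a.P - T D hD (b.w / a.w), ?_, ?_⟩
    · show XP.tr _ (XP.mk hD a) = XP.mk hD b
      rw [XP.tr_mk, XP.mk_eq_iff]
      refine ⟨hab', b.w / a.w, hζ, ?_, ?_⟩
      · show b.w = b.w / a.w * a.w
        rw [div_mul_cancel₀ _ a.w_ne]
      · show b.P = b.P - a.P - T D hD (b.w / a.w) + a.P + T D hD (b.w / a.w)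
        abel
    · intro Q hQ
      have h1 : PY.rel hD (PY.tr Q a) b := (XP.mk_eq_iff _ _).1 hQ
      obtain ⟨-, ζ, h2, h3, h4⟩ := h1
      have h5 : ζ = b.w / a.w := by
        have h6 : b.w = ζ * a.w := h3
        rw [h6, mul_div_cancel_right₀ _ a.w_ne]
      have h7 : b.P = Q + a.P + T D hD ζ := h4
      rw [h7, ← h5]
      abel
  gal_tr σ P := XP.ind fun a => by
    rw [XP.gal_mk, XP.tr_mk, XP.tr_mk, XP.gal_mk]
    congr 1
    exact PY.ext' (map_add _ _ _) rfl rfl
  card_W t ht := by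
    unfold XP.W
    rw [dif_pos ht]
    apply Finset.card_image_of_injOn
    intro ζ hζ η hη h
    have hζ' := mem_mu3.1 hζ
    have hη' := mem_mu3.1 hη
    have h1 : PY.rel hD (PY.pt hD t ht ζ) (PY.pt hD t ht η) := (XP.mk_eq_iff _ _).1 h
    obtain ⟨-, ξ, h2, h3, h4⟩ := h1
    have h5 : ξ = 1 := by
      have h6 : (PY.pt hD t ht ζ).w = ξ * (PY.pt hD t ht ζ).w := h3
      have h7 := (PY.pt hD t ht ζ).w_ne
      have h8 : (ξ - 1) * (PY.pt hD t ht ζ).w = 0 := by linear_combination -h6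
      rcases mul_eq_zero.1 h8 with h9 | h9
      · exact sub_eq_zero.1 h9
      · exact absurd h9 h7
    rw [h5, T_one, add_zero] at h4
    have h10 : T D hD ζ = T D hD η := h4.symm
    exact T_inj hζ' hη' h10
  base_W t w hw := by
    obtain ⟨a, -, h2, rfl⟩ := XP.mem_W.1 hw
    exact h2
  gal_W σ t w hw := by
    obtain ⟨a, h1, h2, rfl⟩ := XP.mem_W.1 hw
    refine XP.mem_W.2 ⟨PY.gal σ a, ?_, ?_, rfl⟩
    · show act (cubic D) σ.toAlgHom a.P = 0
      rw [h1, map_zero]
    · show (fun i => σ (a.t i)) = fun i => σ (t i)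
      rw [h2]

end Pool.Agent.L0h52.BT
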