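import Mathlib

/-!
# Zero-cycles on families of torsors under a constant group

`X → U` is a family of torsors under the group `A` (the points of an elliptic curve over an algebraically
closed field), `W` is a multisection of degree `n`.  The subgroup `Rat` of the group of the zero-cycles is
generated by the principal divisors of the fibres (Abel's theorem) and by the differences
`∑_{w ∈ W_t} [w + P] - ∑_{w ∈ W_{t'}} [w + P]`.  For a zero-cycle `z` of degree zero, `n ^ 2 z` is determined
modulo `Rat` by the sum `∑ m_x alb x`, where `alb x = ∑_{w ∈ W_t} (x - w)`.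
-/

set_option autoImplicit false

namespace Pool.Agent.L0h52.BT

open Finsupp
open scoped Classical

variable {A X B : Type} [AddCommGroup A]

/-- The data of a family of torsors with a multisection. -/
structure Dat (tr : A → X → X) (base : X → B) (U : Set B) (W : B → Finset X) (n : ℕ) : Prop where
  zero : ∀ x, tr 0 x = x
  add : ∀ P Q x, tr (P + Q) x = tr P (tr Q x)
  base_tr : ∀ P x, base (tr P x) = base x
  trans : ∀ x y, base x = base y → ∃! P, tr P x = y
  mem : ∀ x, base x ∈ U
  npos : 0 < n
  card : ∀ t ∈ U, (W t).card = n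
  Wb : ∀ t ∈ U, ∀ w ∈ W t, base w = t

/-- the principal divisors of the fibres -/
def fibreRel (tr : A → X → X) : Set (X →₀ ℤ) :=
  {z | ∃ (x : X) (c : A →₀ ℤ), c.sum (fun _ k => k) = 0 ∧ c.sum (fun P k => k • P) = 0 ∧
    z = c.mapDomain (fun P => tr P x)}

/-- the divisors of the functions `(u - t) / (u - t')` on the translates of `W` -/
def baseRel (tr : A → X → X) (U : Set B) (W : B → Finset X) : Set (X →₀ ℤ) :=
  {z | ∃ (P : A) (t t' : B), t ∈ U ∧ t' ∈ U ∧
    z = ∑ w ∈ W t, single (tr P w) 1 - ∑ w ∈ W t', single (tr P w) 1}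

/-- the subgroup generated by both -/
noncomputable def Rat (tr : A → X → X) (U : Set B) (W : B → Finset X) : AddSubgroup (X →₀ ℤ) :=
  AddSubgroup.closure (fibreRel tr ∪ baseRel tr U W)

/-- the difference of two points -/
noncomputable def diff (tr : A → X → X) (x y : X) : A :=
  if h : ∃ P, tr P y = x then h.choose else 0

/-- the Albanese map -/
noncomputable def alb (tr : A → X → X) (base : X → B) (W : B → Finset X) (x : X) : A :=
  ∑ w ∈ W (base x), diff tr x w

variable {tr : A → X → X} {base : X → B} {U : Set B} {W : B → Finset X} {n : ℕ}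

lemma Dat.tr_diff (h : Dat tr base U W n) {x y : X} (hb : base x = base y) :
    tr (diff tr x y) y = x := by
  have h1 : ∃ P, tr P y = x := (h.trans y x hb.symm).exists
  unfold diff
  rw [dif_pos h1]
  exact h1.choose_spec

lemma Dat.diff_unique (h : Dat tr base U W n) {x y : X} {P : A} (hP : tr P y = x) :
    diff tr x y = P := by
  have hb : base y = base x := by rw [← hP, h.base_tr]
  exact (h.trans y x hb).unique (h.tr_diff hb.symm) hP

lemma Dat.diff_tr (h : Dat tr base U W n) {x y : X} (hb : base x = base y) (P : A) :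
    diff tr (tr P x) y = P + diff tr x y := by
  apply h.diff_unique
  rw [h.add, h.tr_diff hb]

lemma Dat.diff_self (h : Dat tr base U W n) (x : X) : diff tr x x = 0 :=
  h.diff_unique (h.zero x)

lemma Dat.alb_tr (h : Dat tr base U W n) (P : A) (x : X) :
    alb tr base W (tr P x) = n • P + alb tr base W x := by
  unfold alb
  rw [h.base_tr, Finset.sum_congr rfl fun w hw =>
    h.diff_tr (by rw [h.Wb _ (h.mem x) w hw]) P, Finset.sum_add_distrib, Finset.sum_const,
    h.card _ (h.mem x)]

/-- the class of a point -/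
noncomputable def cl (tr : A → X → X) (U : Set B) (W : B → Finset X) (x : X) :
    (X →₀ ℤ) ⧸ Rat tr U W :=
  QuotientAddGroup.mk' _ (single x 1)

/-- the class of a cycle -/
lemma mk_eq (z : X →₀ ℤ) : QuotientAddGroup.mk' (Rat tr U W) z = z.sum fun x k => k • cl tr U W x := by
  conv_lhs => rw [← z.sum_single]
  rw [Finsupp.sum, Finsupp.sum, map_sum]
  refine Finset.sum_congr rfl fun x _ => ?_
  unfold cl
  rw [← map_zsmul]
  congr 1
  rw [Finsupp.smul_single, smul_eq_mul, mul_one]

lemma cl_add (x : X) (P Q : A) :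
    cl tr U W (tr (P + Q) x) + cl tr U W (tr 0 x) = cl tr U W (tr P x) + cl tr U W (tr Q x) := by
  have h1 : single (tr (P + Q) x) (1 : ℤ) + single (tr 0 x) 1 -
      (single (tr P x) 1 + single (tr Q x) 1) ∈ Rat tr U W := by
    apply AddSubgroup.subset_closure
    left
    refine ⟨x, single (P + Q) 1 + single 0 1 - (single P 1 + single Q 1), ?_, ?_, ?_⟩
    · rw [Finsupp.sum_sub_index (fun _ _ _ => rfl), Finsupp.sum_add_index' (fun _ => rfl)
        (fun _ _ _ => rfl), Finsupp.sum_add_index' (fun _ => rfl) (fun _ _ _ => rfl)]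
      simp
    · have hm : ∀ c d : A →₀ ℤ, (c + d).sum (fun P k => k • P) =
          c.sum (fun P k => k • P) + d.sum (fun P k => k • P) := fun c d =>
        Finsupp.sum_add_index' (h := fun P (k : ℤ) => k • P) (fun P => zero_smul ℤ P)
          (fun P k l => add_smul k l P)
      have hs : ∀ c d : A →₀ ℤ, (c - d).sum (fun P k => k • P) =
          c.sum (fun P k => k • P) - d.sum (fun P k => k • P) := fun c d =>
        Finsupp.sum_sub_index (h := fun P (k : ℤ) => k • P) (fun P k l => sub_smul k l P)
      rw [hs, hm, hm]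
      simp
    · rw [sub_eq_add_neg, sub_eq_add_neg]
      simp only [Finsupp.mapDomain_add, Finsupp.mapDomain_single, ← Finsupp.single_neg, neg_add]
  have h2 := (QuotientAddGroup.eq_zero_iff _).2 h1
  have h3 : QuotientAddGroup.mk' (Rat tr U W) (single (tr (P + Q) x) (1 : ℤ) + single (tr 0 x) 1 -
      (single (tr P x) 1 + single (tr Q x) 1)) = 0 := h2
  rw [map_sub, map_add, map_add, sub_eq_zero] at h3
  exact h3

/-- the homomorphism `P ↦ [x + P] - [x]` -/
noncomputable def Dat.psi (h : Dat tr base U W n) (x : X) : A →+ (X →₀ ℤ) ⧸ Rat tr U W where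
  toFun P := cl tr U W (tr P x) - cl tr U W x
  map_zero' := by rw [h.zero, sub_self]
  map_add' P Q := by
    have h1 := cl_add (U := U) (W := W) (tr := tr) x P Q
    rw [h.zero] at h1
    rw [eq_sub_of_add_eq h1]
    abel

lemma Dat.psi_apply (h : Dat tr base U W n) (x : X) (P : A) :
    h.psi x P = cl tr U W (tr P x) - cl tr U W x := rfl

lemma Dat.psi_eq (h : Dat tr base U W n) {x y : X} (hb : base x = base y) : h.psi x = h.psi y := by
  ext P
  have e : x = tr (diff tr x y) y := (h.tr_diff hb).symm
  have h1 := (h.psi y).map_add P (diff tr x y)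
  rw [h.psi_apply, h.psi_apply, h.psi_apply, h.add, ← e] at h1
  rw [h.psi_apply, h.psi_apply]
  have h2 : cl tr U W (tr P x) = cl tr U W (tr P y) - cl tr U W y +
      (cl tr U W x - cl tr U W y) + cl tr U W y := by
    rw [← h1]
    abel
  rw [h2]
  abel

lemma base_eq {P : A} {t t' : B} (ht : t ∈ U) (ht' : t' ∈ U) :
    ∑ w ∈ W t, cl tr U W (tr P w) = ∑ w ∈ W t', cl tr U W (tr P w) := by
  have h1 : ∑ w ∈ W t, single (tr P w) (1 : ℤ) - ∑ w ∈ W t', single (tr P w) 1 ∈ Rat tr U W := by
    apply AddSubgroup.subset_closure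
    right
    exact ⟨P, t, t', ht, ht', rfl⟩
  have h3 : QuotientAddGroup.mk' (Rat tr U W) (∑ w ∈ W t, single (tr P w) (1 : ℤ) -
      ∑ w ∈ W t', single (tr P w) 1) = 0 := (QuotientAddGroup.eq_zero_iff _).2 h1
  rw [map_sub, map_sum, map_sum, sub_eq_zero] at h3
  exact h3

/-- the sum of the homomorphisms over the points of `W_t` -/
noncomputable def Dat.Phi (h : Dat tr base U W n) (t : B) : A →+ (X →₀ ℤ) ⧸ Rat tr U W :=
  ∑ w ∈ W t, h.psi w

lemma Dat.Phi_eq (h : Dat tr base U W n) {t t' : B} (ht : t ∈ U) (ht' : t' ∈ U) :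
    h.Phi t = h.Phi t' := by
  ext P
  unfold Dat.Phi
  rw [AddMonoidHom.finsetSum_apply, AddMonoidHom.finsetSum_apply]
  simp only [h.psi_apply, Finset.sum_sub_distrib]
  rw [base_eq ht ht']
  have h0 := base_eq (tr := tr) (W := W) (P := 0) ht ht'
  simp only [h.zero] at h0
  rw [h0]

lemma Dat.point (h : Dat tr base U W n) (x : X) {t : B} (ht : t ∈ U) :
    (n ^ 2 : ℕ) • cl tr U W x = n • ∑ w ∈ W t, cl tr U W w + h.Phi t (alb tr base W x) := by
  have hx := h.mem x
  have h1 : n • cl tr U W x - ∑ w ∈ W (base x), cl tr U W w = h.psi x (alb tr base W x) := by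
    unfold alb
    have e1 : n • cl tr U W x = ∑ w ∈ W (base x), cl tr U W x := by
      rw [Finset.sum_const, h.card _ hx]
    rw [map_sum, e1, ← Finset.sum_sub_distrib]
    refine Finset.sum_congr rfl fun w hw => ?_
    have hb : base x = base w := (h.Wb _ hx w hw).symm
    rw [h.psi_eq hb, h.psi_apply, h.tr_diff hb]
  have h2 : n • h.psi x (alb tr base W x) = h.Phi (base x) (alb tr base W x) := by
    unfold Dat.Phi
    have e1 : n • h.psi x (alb tr base W x) = ∑ w ∈ W (base x), h.psi x (alb tr base W x) := by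
      rw [Finset.sum_const, h.card _ hx]
    rw [AddMonoidHom.finsetSum_apply, e1]
    refine Finset.sum_congr rfl fun w hw => ?_
    rw [h.psi_eq (h.Wb _ hx w hw).symm]
  rw [← h.Phi_eq hx ht, ← h2, ← h1, nsmul_sub, pow_two, mul_nsmul]
  have h0 := base_eq (tr := tr) (W := W) (P := 0) hx ht
  simp only [h.zero] at h0
  rw [h0]
  abel

/-- the degree of a cycle -/
def deg (z : X →₀ ℤ) : ℤ := z.sum fun _ k => k

/-- the Albanese image of a cycle -/
noncomputable def albC (tr : A → X → X) (base : X → B) (W : B → Finset X) (z : X →₀ ℤ) : A :=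
  z.sum fun x k => k • alb tr base W x

lemma Dat.cycle (h : Dat tr base U W n) {z : X →₀ ℤ} (hz : deg z = 0) {t : B} (ht : t ∈ U) :
    QuotientAddGroup.mk' (Rat tr U W) ((n ^ 2 : ℕ) • z) = h.Phi t (albC tr base W z) := by
  rw [map_nsmul, mk_eq, Finsupp.sum, ← Finset.sum_nsmul]
  have h1 : ∀ x ∈ z.support, (n ^ 2 : ℕ) • (z x • cl tr U W x) =
      z x • (n • ∑ w ∈ W t, cl tr U W w) + h.Phi t (z x • alb tr base W x) := by
    intro x _
    rw [smul_comm, h.point x ht, zsmul_add, map_zsmul]
  have h3 : ∑ x ∈ z.support, z x • (n • ∑ w ∈ W t, cl tr U W w) =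
      (∑ x ∈ z.support, z x) • (n • ∑ w ∈ W t, cl tr U W w) := (Finset.sum_smul).symm
  rw [Finset.sum_congr rfl h1, Finset.sum_add_distrib, h3]
  have h2 : ∑ x ∈ z.support, z x = 0 := hz
  rw [h2, zero_zsmul, zero_add]
  exact (map_sum (h.Phi t) _ _).symm

lemma deg_add (y z : X →₀ ℤ) : deg (y + z) = deg y + deg z :=
  Finsupp.sum_add_index' (fun _ => rfl) (fun _ _ _ => rfl)

lemma albC_add (y z : X →₀ ℤ) : albC tr base W (y + z) = albC tr base W y + albC tr base W z :=
  Finsupp.sum_add_index' (fun _ => zero_smul _ _) (fun _ _ _ => add_smul _ _ _)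

/-- the Albanese map as a homomorphism -/
noncomputable def albHom (tr : A → X → X) (base : X → B) (W : B → Finset X) : (X →₀ ℤ) →+ A where
  toFun := albC tr base W
  map_zero' := Finsupp.sum_zero_index
  map_add' := albC_add

lemma albC_single (x : X) (k : ℤ) : albC tr base W (single x k) = k • alb tr base W x :=
  Finsupp.sum_single_index (zero_smul _ _)

lemma Dat.rat_alb (h : Dat tr base U W n) {z : X →₀ ℤ} (hz : z ∈ Rat tr U W) :
    albC tr base W z = 0 := by
  have h1 : Rat tr U W ≤ (albHom tr base W).ker := by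
    unfold Rat
    rw [AddSubgroup.closure_le]
    rintro z (⟨x, c, hc1, hc2, rfl⟩ | ⟨P, t, t', ht, ht', rfl⟩)
    · show albC tr base W _ = 0
      unfold albC
      rw [Finsupp.sum_mapDomain_index (h := fun y (k : ℤ) => k • alb tr base W y)
        (fun y => zero_smul ℤ _) (fun y k l => add_smul k l _)]
      simp only [h.alb_tr, smul_add]
      rw [Finsupp.sum_add, Finsupp.sum, Finsupp.sum, ← Finset.sum_smul]
      have e1 : ∑ P ∈ c.support, c P = 0 := hc1
      rw [e1, zero_smul, add_zero]
      have e2 : ∑ P ∈ c.support, c P • n • P = n • ∑ P ∈ c.support, c P • P := by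
        rw [Finset.smul_sum]
        exact Finset.sum_congr rfl fun P _ => smul_comm _ _ _
      have e3 : ∑ P ∈ c.support, c P • P = 0 := hc2
      rw [e2, e3, smul_zero]
    · show albHom tr base W _ = 0
      have key : ∀ s ∈ U, albHom tr base W (∑ w ∈ W s, single (tr P w) 1) = (n * n) • P := by
        intro s hs
        rw [map_sum]
        have e1 : ∀ w ∈ W s, albHom tr base W (single (tr P w) 1) =
            n • P + alb tr base W w := by
          intro w _
          show albC tr base W _ = _
          rw [albC_single, one_smul, h.alb_tr]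
        rw [Finset.sum_congr rfl e1, Finset.sum_add_distrib, Finset.sum_const, h.card s hs]
        have e2 : ∑ w ∈ W s, alb tr base W w = 0 := by
          have e3 : ∀ w ∈ W s, alb tr base W w = ∑ v ∈ W s, diff tr w v := by
            intro w hw
            unfold alb
            rw [h.Wb s hs w hw]
          rw [Finset.sum_congr rfl e3]
          have e4 : ∑ w ∈ W s, ∑ v ∈ W s, diff tr w v =
              ∑ w ∈ W s, ∑ v ∈ W s, diff tr v w := Finset.sum_comm
          have e5 : ∀ w ∈ W s, ∀ v ∈ W s, diff tr v w = - diff tr w v := by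
            intro w hw v hv
            have hb : base w = base v := by rw [h.Wb s hs w hw, h.Wb s hs v hv]
            have e6 := h.diff_tr (y := w) hb.symm (diff tr w v)
            rw [h.tr_diff hb, h.diff_self] at e6
            rw [eq_neg_iff_add_eq_zero, add_comm]
            exact e6.symm
          obtain ⟨w0, hw0⟩ : (W s).Nonempty := by
            rw [← Finset.card_pos, h.card s hs]
            exact h.npos
          -- every difference is a difference of the differences to `w0`
          have e7 : ∀ w ∈ W s, ∀ v ∈ W s, diff tr w v = diff tr w w0 - diff tr v w0 := by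
            intro w hw v hv
            have hb : base w = base v := by rw [h.Wb s hs w hw, h.Wb s hs v hv]
            have hb0 : base v = base w0 := by rw [h.Wb s hs v hv, h.Wb s hs w0 hw0]
            have e6 := h.diff_tr (y := w0) hb0 (diff tr w v)
            rw [h.tr_diff hb] at e6
            rw [e6]
            abel
          rw [Finset.sum_congr rfl fun w hw => Finset.sum_congr rfl fun v hv => e7 w hw v hv]
          simp only [Finset.sum_sub_distrib, Finset.sum_const]
          rw [← Finset.smul_sum]
          exact sub_self _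
        rw [e2, add_zero, mul_smul]
      rw [map_sub, key t ht, key t' ht', sub_self]
  exact h1 hz

/-- a zero-cycle of degree zero has a multiple in `Rat` if and only if its Albanese image is torsion -/
theorem Dat.torsion_iff (h : Dat tr base U W n) {z : X →₀ ℤ} (hz : deg z = 0) :
    (∃ N : ℕ, 0 < N ∧ N • z ∈ Rat tr U W) ↔ ∃ N : ℕ, 0 < N ∧ N • albC tr base W z = 0 := by
  constructor
  · rintro ⟨N, hN, hz'⟩
    refine ⟨N, hN, ?_⟩
    have h1 := h.rat_alb hz'
    have h2 : albHom tr base W (N • z) = N • albHom tr base W z := map_nsmul _ _ _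
    exact h2.symm.trans h1
  · rintro ⟨N, hN, ha⟩
    by_cases hX : Nonempty X
    · obtain ⟨x⟩ := hX
      refine ⟨N * n ^ 2, Nat.mul_pos hN (pow_pos h.npos 2), ?_⟩
      have h1 := h.cycle hz (h.mem x)
      rw [← QuotientAddGroup.eq_zero_iff]
      show QuotientAddGroup.mk' (Rat tr U W) ((N * n ^ 2) • z) = 0
      rw [mul_smul, map_nsmul, h1, ← map_nsmul, ha, map_zero]
    · refine ⟨1, one_pos, ?_⟩
      have : z = 0 := by
        ext x
        exact absurd ⟨x⟩ hX
      rw [this, smul_zero]
      exact zero_mem _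

end Pool.Agent.L0h52.BT
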