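import Pool.Agent.L0h52.BT.CubicFam
import Pool.Agent.R419.CF.Low
import Pool.Agent.R419.CF.Weak

/-!
# The rational points and the L-functions of `x³ + y³ = D`
-/

set_option autoImplicit false

namespace Pool.Agent.L0h52.BT

open scoped Classical
open Pool.Agent.TH841.SH.D (Pt act Gal)

/-- the points of `y² = x³ - 432 D²` over `ℚ` are finite in number if the solutions are -/
lemma finite_pt {D : ℚ}
    (h : {q : ℚ × ℚ | q.2 ^ 2 = q.1 ^ 3 + (0 : ℚ) * q.1 + (-432 * D ^ 2)}.Finite) :
    Finite (Pt (cubic D) ℚ) := by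
  set S : Set (ℚ × ℚ) := {q : ℚ × ℚ | q.2 ^ 2 = q.1 ^ 3 + (0 : ℚ) * q.1 + (-432 * D ^ 2)}
    with hS
  have hfin0 : Finite S := h.to_subtype
  have hfin : Finite (Option S) := inferInstance
  let g : Pt (cubic D) ℚ → Option S := fun P =>
    match P with
    | .zero => none
    | .some x y hxy => some ⟨(x, y), by
        have h1 := ((WeierstrassCurve.Affine.nonsingular_iff _ _).1 hxy).1
        rw [WeierstrassCurve.Affine.equation_iff] at h1
        have ha1 : ((cubic D).baseChange ℚ).toAffine.a₁ = 0 := map_zero _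
        have ha2 : ((cubic D).baseChange ℚ).toAffine.a₂ = 0 := map_zero _
        have ha3 : ((cubic D).baseChange ℚ).toAffine.a₃ = 0 := map_zero _
        have ha4 : ((cubic D).baseChange ℚ).toAffine.a₄ = 0 := map_zero _
        have ha6 : ((cubic D).baseChange ℚ).toAffine.a₆ = -432 * D ^ 2 := rfl
        rw [ha1, ha2, ha3, ha4, ha6] at h1
        show y ^ 2 = x ^ 3 + 0 * x + (-432 * D ^ 2)
        linear_combination h1⟩
  have hg : Function.Injective g := by
    intro P Q hPQ
    match P, Q, hPQ with
    | .zero, .zero, _ => rfl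
    | .zero, .some x y h, hPQ => exact absurd hPQ (by simp [g])
    | .some x y h, .zero, hPQ => exact absurd hPQ (by simp [g])
    | .some x y h, .some x' y' h', hPQ =>
      have h1 : (x, y) = (x', y') := congrArg Subtype.val (Option.some.inj hPQ)
      have h2 := Prod.mk.inj h1
      obtain ⟨rfl, rfl⟩ := h2
      rfl
  exact Finite.of_injective g hg

end Pool.Agent.L0h52.BT
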