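import Pool.Agent.L0h52.BT.Fam
import Pool.Agent.TH841.SH.ShaDef

/-!
# Families of torsors under an elliptic curve over `ℚ`

The Galois group acts on the family; the Albanese image of a zero-cycle over `ℚ` is a rational point.
-/

set_option autoImplicit false

namespace Pool.Agent.L0h52.BT

open Finsupp
open scoped Classical
open Pool.Agent.TH841.SH.D (Pt act Gal)

variable {k : Type} [Field k] [CharZero k]


instance : IsGalois k (AlgebraicClosure k) := IsAlgClosure.isGalois k (AlgebraicClosure k)

/-- A point over the algebraic closure that is fixed by the Galois group is rational. -/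
theorem exists_rational (E : WeierstrassCurve k) (P : Pt E (AlgebraicClosure k))
    (h : ∀ σ : Gal k, act E σ.toAlgHom P = P) :
    ∃ Q : Pt E k, act E (Algebra.ofId k (AlgebraicClosure k)) Q = P := by
  have hfix : ∀ x : (AlgebraicClosure k), (∀ σ : Gal k, σ x = x) → ∃ q : k, algebraMap k (AlgebraicClosure k) q = x := by
    intro x hx
    exact (InfiniteGalois.mem_range_algebraMap_iff_fixed (k := k) (K := (AlgebraicClosure k)) x).2 hx
  match P, h with
  | .zero, _ => exact ⟨0, map_zero _⟩
  | .some x y hxy, h =>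
    have h1 : ∀ σ : Gal k, σ x = x ∧ σ y = y := by
      intro σ
      have h2 := h σ
      have h3 : act E σ.toAlgHom (WeierstrassCurve.Affine.Point.some x y hxy) =
        WeierstrassCurve.Affine.Point.some (σ x) (σ y)
          ((WeierstrassCurve.Affine.baseChange_nonsingular (W := E) (f := σ.toAlgHom) σ.toAlgHom.injective x y).mpr hxy) := rfl
      rw [h3] at h2
      have h4 := WeierstrassCurve.Affine.Point.some.inj h2
      exact ⟨h4.1, h4.2⟩
    obtain ⟨a, ha⟩ := hfix x fun σ => (h1 σ).1
    obtain ⟨b, hb⟩ := hfix y fun σ => (h1 σ).2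
    subst ha hb
    have h5 : (E.baseChange k).toAffine.Nonsingular a b :=
      (WeierstrassCurve.Affine.baseChange_nonsingular (W := E) (f := Algebra.ofId k (AlgebraicClosure k))
        (Algebra.ofId k (AlgebraicClosure k)).injective a b).mp hxy
    exact ⟨WeierstrassCurve.Affine.Point.some a b h5, rfl⟩

/-- A family of torsors under `E` over the open subset `f ≠ 0` of the affine space, with a multisection
`W` of degree `n`, all over `ℚ`. -/
structure TorsorFamily (E : WeierstrassCurve k) (m : ℕ) where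
  f : MvPolynomial (Fin m) k
  f_ne : f ≠ 0
  X : Type
  base : X → Fin m → (AlgebraicClosure k)
  gal : Gal k → X → X
  tr : Pt E (AlgebraicClosure k) → X → X
  W : (Fin m → (AlgebraicClosure k)) → Finset X
  n : ℕ
  n_pos : 0 < n
  base_ne : ∀ x, MvPolynomial.aeval (base x) f ≠ 0
  gal_one : ∀ x, gal 1 x = x
  gal_mul : ∀ σ τ x, gal (σ * τ) x = gal σ (gal τ x)
  base_gal : ∀ σ x i, base (gal σ x) i = σ (base x i)
  tr_zero : ∀ x, tr 0 x = x
  tr_add : ∀ P Q x, tr (P + Q) x = tr P (tr Q x)
  base_tr : ∀ P x, base (tr P x) = base x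
  trans : ∀ x y, base x = base y → ∃! P, tr P x = y
  gal_tr : ∀ σ P x, gal σ (tr P x) = tr (act E σ.toAlgHom P) (gal σ x)
  card_W : ∀ t, MvPolynomial.aeval t f ≠ 0 → (W t).card = n
  base_W : ∀ t, ∀ w ∈ W t, base w = t
  gal_W : ∀ σ t, ∀ w ∈ W t, gal σ w ∈ W (fun i => σ (t i))

variable {E : WeierstrassCurve k} {m : ℕ} (F : TorsorFamily E m)

/-- the open subset -/
def TorsorFamily.U : Set (Fin m → (AlgebraicClosure k)) := {t | MvPolynomial.aeval t F.f ≠ 0}

lemma TorsorFamily.dat : Dat F.tr F.base F.U F.W F.n where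
  zero := F.tr_zero
  add := F.tr_add
  base_tr := F.base_tr
  trans := F.trans
  mem := F.base_ne
  npos := F.n_pos
  card := F.card_W
  Wb := fun t _ w hw => F.base_W t w hw

/-- the zero-cycle is invariant under the Galois group -/
def TorsorFamily.Inv (z : F.X →₀ ℤ) : Prop := ∀ σ, z.mapDomain (F.gal σ) = z

lemma TorsorFamily.gal_inv (σ : Gal k) (x : F.X) : F.gal σ⁻¹ (F.gal σ x) = x := by
  rw [← F.gal_mul, inv_mul_cancel, F.gal_one]

lemma TorsorFamily.gal_inv' (σ : Gal k) (x : F.X) : F.gal σ (F.gal σ⁻¹ x) = x := by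
  rw [← F.gal_mul, mul_inv_cancel, F.gal_one]

lemma TorsorFamily.diff_gal (σ : Gal k) {x y : F.X} (h : F.base x = F.base y) :
    diff F.tr (F.gal σ x) (F.gal σ y) = act E σ.toAlgHom (diff F.tr x y) := by
  apply F.dat.diff_unique
  rw [← F.gal_tr, F.dat.tr_diff h]

lemma TorsorFamily.W_image (σ : Gal k) (t : Fin m → (AlgebraicClosure k)) :
    F.W (fun i => σ (t i)) = (F.W t).image (F.gal σ) := by
  ext w
  rw [Finset.mem_image]
  constructor
  · intro hw
    refine ⟨F.gal σ⁻¹ w, ?_, F.gal_inv' σ w⟩
    have h1 := F.gal_W σ⁻¹ _ w hw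
    have h2 : (fun i => σ⁻¹ ((fun i => σ (t i)) i)) = t := by
      funext i
      show (σ⁻¹ * σ) (t i) = t i
      rw [inv_mul_cancel]
      rfl
    rwa [h2] at h1
  · rintro ⟨v, hv, rfl⟩
    exact F.gal_W σ t v hv

lemma TorsorFamily.gal_injective (σ : Gal k) : Function.Injective (F.gal σ) := fun x y h => by
  rw [← F.gal_inv σ x, h, F.gal_inv]

lemma TorsorFamily.alb_gal (σ : Gal k) (x : F.X) :
    alb F.tr F.base F.W (F.gal σ x) = act E σ.toAlgHom (alb F.tr F.base F.W x) := by
  unfold alb
  have h1 : F.base (F.gal σ x) = fun i => σ (F.base x i) := funext fun i => F.base_gal σ x i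
  rw [h1, F.W_image, Finset.sum_image fun a _ b _ h => F.gal_injective σ h, map_sum]
  refine Finset.sum_congr rfl fun w hw => ?_
  rw [F.diff_gal]
  rw [F.base_W _ w hw]

lemma TorsorFamily.albC_gal (σ : Gal k) (z : F.X →₀ ℤ) :
    albC F.tr F.base F.W (z.mapDomain (F.gal σ)) =
      act E σ.toAlgHom (albC F.tr F.base F.W z) := by
  unfold albC
  rw [Finsupp.sum_mapDomain_index (h := fun y (k : ℤ) => k • alb F.tr F.base F.W y)
        (fun y => zero_smul ℤ _) (fun y k l => add_smul k l _), Finsupp.sum, Finsupp.sum, map_sum]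
  refine Finset.sum_congr rfl fun x _ => ?_
  rw [F.alb_gal, map_zsmul]

/-- the Albanese image of a cycle over `ℚ` is a rational point -/
theorem TorsorFamily.alb_rational {z : F.X →₀ ℤ} (hz : F.Inv z) :
    ∃ Q : Pt E k, act E (Algebra.ofId k (AlgebraicClosure k)) Q = albC F.tr F.base F.W z := by
  apply exists_rational
  intro σ
  rw [← F.albC_gal, hz σ]

/-- if `E(ℚ)` is finite then every zero-cycle over `ℚ` of degree zero is torsion -/
theorem TorsorFamily.torsion (hE : Finite (Pt E k)) {z : F.X →₀ ℤ} (hz : F.Inv z)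
    (hd : deg z = 0) : ∃ N : ℕ, 0 < N ∧ N • z ∈ Rat F.tr F.U F.W := by
  rw [F.dat.torsion_iff hd]
  obtain ⟨Q, hQ⟩ := F.alb_rational hz
  refine ⟨Nat.card (Pt E k), Nat.card_pos, ?_⟩
  rw [← hQ, ← map_nsmul]
  have : Nat.card (Pt E k) • Q = 0 := card_nsmul_eq_zero'
  rw [this, map_zero]

/-- all the rational points come from zero-cycles over `ℚ`, up to the factor `n ^ 2` -/
theorem TorsorFamily.surj (Q : Pt E k) : ∃ z : F.X →₀ ℤ, F.Inv z ∧ deg z = 0 ∧
    albC F.tr F.base F.W z = (F.n ^ 2) • act E (Algebra.ofId k (AlgebraicClosure k)) Q := by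
  obtain ⟨q, hq⟩ : ∃ q : Fin m → k, MvPolynomial.eval q F.f ≠ 0 := by
    by_contra hcon
    push Not at hcon
    exact F.f_ne (MvPolynomial.funext fun q => by rw [hcon q, map_zero])
  set t : Fin m → (AlgebraicClosure k) := fun i => algebraMap k (AlgebraicClosure k) (q i) with ht
  have htU : MvPolynomial.aeval t F.f ≠ 0 := by
    have e : MvPolynomial.aeval t F.f = algebraMap k (AlgebraicClosure k) (MvPolynomial.eval q F.f) := by
      rw [ht, ← MvPolynomial.aeval_eq_eval]
      exact MvPolynomial.aeval_algebraMap_apply (AlgebraicClosure k) q F.f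
    rw [e]
    exact (map_ne_zero_iff _ (algebraMap k (AlgebraicClosure k)).injective).2 hq
  set P := act E (Algebra.ofId k (AlgebraicClosure k)) Q with hP
  have hPσ : ∀ σ : Gal k, act E σ.toAlgHom P = P := by
    intro σ
    have h1 : (σ.toAlgHom.comp (Algebra.ofId k (AlgebraicClosure k))) = Algebra.ofId k (AlgebraicClosure k) :=
      Subsingleton.elim _ _
    have h2 := WeierstrassCurve.Affine.Point.map_map (W' := E) (f := Algebra.ofId k (AlgebraicClosure k))
      (g := σ.toAlgHom) Q
    rw [h1] at h2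
    exact h2
  refine ⟨∑ w ∈ F.W t, (single (F.tr P w) 1 - single w 1), ?_, ?_, ?_⟩
  · intro σ
    have hs : (fun i => σ (t i)) = t := by
      funext i
      exact σ.commutes (q i)
    have h1 := F.W_image σ t
    rw [hs] at h1
    have h2 : (∑ w ∈ F.W t, (single (F.tr P w) (1 : ℤ) - single w 1)).mapDomain (F.gal σ) =
        ∑ w ∈ F.W t, (single (F.tr P (F.gal σ w)) (1 : ℤ) - single (F.gal σ w) 1) := by
      have h3 : ∀ z : F.X →₀ ℤ, z.mapDomain (F.gal σ) =
          Finsupp.mapDomain.addMonoidHom (F.gal σ) z := fun _ => rfl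
      rw [h3, map_sum]
      refine Finset.sum_congr rfl fun w _ => ?_
      rw [map_sub]
      show Finsupp.mapDomain _ _ - Finsupp.mapDomain _ _ = _
      rw [Finsupp.mapDomain_single, Finsupp.mapDomain_single, F.gal_tr, hPσ]
    rw [h2]
    conv_rhs => rw [h1]
    rw [Finset.sum_image fun a _ b _ h => F.gal_injective σ h]
  · have h1 : ∀ s : Finset F.X, deg (∑ w ∈ s, (single (F.tr P w) (1 : ℤ) - single w 1)) = 0 := by
      intro s
      induction s using Finset.induction_on with
      | empty => rw [Finset.sum_empty]; exact Finsupp.sum_zero_index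
      | insert a s ha ih =>
        rw [Finset.sum_insert ha, deg_add, ih, add_zero]
        unfold deg
        rw [Finsupp.sum_sub_index (fun _ _ _ => rfl)]
        simp
    exact h1 _
  · have h1 : albHom F.tr F.base F.W (∑ w ∈ F.W t, (single (F.tr P w) (1 : ℤ) - single w 1)) =
        (F.n ^ 2) • P := by
      rw [map_sum]
      have h2 : ∀ w ∈ F.W t, albHom F.tr F.base F.W (single (F.tr P w) (1 : ℤ) - single w 1) =
          F.n • P := by
        intro w _
        rw [map_sub]
        show albC _ _ _ _ - albC _ _ _ _ = _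
        rw [albC_single, albC_single, F.dat.alb_tr, one_smul, one_smul]
        abel
      rw [Finset.sum_congr rfl h2, Finset.sum_const, F.card_W t htU, smul_smul, pow_two]
    exact h1

end Pool.Agent.L0h52.BT
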